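import Pool.Agent.Q234.PL.All

/-!
# A lower bound for the bond dimension of accurate PEPS approximations

The Hamiltonian is `H_L = - ∑_u Z_u - λ ∑_u X_u X_(u + (1, 0))` on the `L × L` torus, `0 < λ < 1`
(transverse field Ising rings in the rows). For every `L ≥ 1` it has a unique ground state `Ψ_L` and
a gap of at least `2 (1 - λ)`.

There is `a > 0` such that every PEPS vector (tensors depending on the site) within distance `ε` of
`Ψ_L`, `exp (-a L^3) ≤ ε ≤ 1/2`, has bond dimension at least `exp (a (log (L/ε))^(1/3))`, for all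
large `L`.
-/

set_option autoImplicit false

open Pool.Agent.TH235.PP

namespace Pool.Agent.Results.MP_953b23_mp.BondDimensionLowerBound

/-- The diagonal entries of the Pauli matrix `Z`. -/
def z (a : Fin 2) : ℂ := if a = 0 then 1 else -1

/-- The interaction `- Z_(0,0) - lam X_(0,0) X_(1,0)` as an operator on the `2 × 2` box: a diagonal
part, and the entry `-lam` for pairs of configurations which differ exactly at `(0,0)` and `(1,0)`. -/
noncomputable def ising (lam : ℝ) : BoxOp 2 2 := fun p q =>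
  (if p = q then -(z (p (0, 0))) else 0) -
    if q (0, 0) = p (0, 0) + 1 ∧ q (1, 0) = p (1, 0) + 1 ∧ q (0, 1) = p (0, 1) ∧ q (1, 1) = p (1, 1)
      then (lam : ℂ) else 0

theorem ising_eq (lam : ℝ) : ising lam = Pool.Agent.Q234.PL.ising lam := rfl

/-- **Theorem.** A lower bound for the bond dimension of all PEPS vectors (with site dependent
tensors) within distance `ε` of the ground states of a gapped translation invariant nearest neighbour
Hamiltonian, for all `ε` down to `exp (-a L^3)`. -/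
theorem result (lam : ℝ) (h0 : 0 < lam) (h1 : lam < 1) :
    (ising lam).IsHermitian ∧ ∃ Ψ : ∀ L : ℕ, (Site L → Fin 2) → ℂ,
      (∀ (L : ℕ) [NeZero L], normSq (Ψ L) = 1 ∧
        IsGappedGround (ham (ising lam) L) (2 * (1 - lam)) (Ψ L)) ∧
      ∃ a : ℝ, 0 < a ∧ ∃ L₀ : ℕ, ∀ (L : ℕ) [NeZero L], L₀ ≤ L →
        ∀ ε : ℝ, Real.exp (-(a * (L : ℝ) ^ 3)) ≤ ε → ε ≤ 1 / 2 →
        ∀ (D : ℕ) (φ : (Site L → Fin 2) → ℂ), IsPEPS D φ → Real.sqrt (normSq (φ - Ψ L)) ≤ ε →
          Real.exp (a * Real.log (L / ε) ^ (1 / 3 : ℝ)) ≤ D := by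
  refine ⟨Pool.Agent.Q234.PL.All.ising_herm lam, ?_⟩
  obtain ⟨C, Ψ, hC, hK⟩ := Pool.Agent.Q234.PL.All.core lam h0 h1
  exact ⟨Ψ, hK.1, Pool.Agent.Q234.PL.FU.precise hC hK Pool.Agent.Q234.PL.All.pepsKernelAt⟩

end Pool.Agent.Results.MP_953b23_mp.BondDimensionLowerBound
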