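import Pool.Agent.Q234.PE.All

/-!
# The energy of PEPS vectors of small bond dimension is extensively above the ground energy

The Hamiltonian is `H_L = - ∑_u Z_u - λ ∑_u X_u X_(u + (1, 0))` on the `L × L` torus, `0 < λ < 1`
(transverse field Ising rings in the rows). For every `L ≥ 1` it has a unique ground state `Ψ_L`, with
the energy `E_L`, and a gap of at least `2 (1 - λ)`. There is a constant `C > 0` such that for all
`D ≥ 1` and all `L ≥ C (1 + log D)` every PEPS vector `φ` of bond dimension `D` (tensors depending on
the site) satisfies `⟨φ, H_L φ⟩ ≥ (E_L + L² exp (-C (1 + log D)³)) ‖φ‖²`: the energy per site is at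
least the ground energy per site plus `exp (-C (1 + log D)³)`, uniformly in `L`.

Idea: by the Jordan-Wigner transformation in each parity sector of a row, `H - E` is half the sum of
`a_xᴴ a_x` over the sites `x` of the row, with exponentially localised modes `a_x`, and translations
permute the modes. A PEPS vector has a kernel vector on the block `[0, m)²` if `2 D⁴ < 2^m`, for all
sectors at once; a robust form of the block theorem of BondDimensionLowerBound shows that then the modes
near the block cannot all be small on `φ`. Average over the translates of the block.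
-/

set_option autoImplicit false

open Pool.Agent.TH235.PP

namespace Pool.Agent.Results.MP_953b23_mp.EnergyLowerBound

/-- The diagonal entries of the Pauli matrix `Z`. -/
def z (a : Fin 2) : ℂ := if a = 0 then 1 else -1

/-- The interaction `- Z_(0,0) - lam X_(0,0) X_(1,0)` as an operator on the `2 × 2` box: a diagonal
part, and the entry `-lam` for pairs of configurations which differ exactly at `(0,0)` and `(1,0)`. -/
noncomputable def ising (lam : ℝ) : BoxOp 2 2 := fun p q =>
  (if p = q then -(z (p (0, 0))) else 0) -
    if q (0, 0) = p (0, 0) + 1 ∧ q (1, 0) = p (1, 0) + 1 ∧ q (0, 1) = p (0, 1) ∧ q (1, 1) = p (1, 1)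
      then (lam : ℂ) else 0

/-- **Theorem.** The energy per site of every PEPS vector of bond dimension `D` is at least the ground
energy per site plus `exp (-C (1 + log D)³)`, for a gapped translation invariant nearest neighbour
Hamiltonian with unique ground states. -/
theorem result (lam : ℝ) (h0 : 0 < lam) (h1 : lam < 1) :
    (ising lam).IsHermitian ∧ ∃ (Ψ : ∀ L : ℕ, (Site L → Fin 2) → ℂ) (E : ℕ → ℝ) (C : ℝ), 0 < C ∧
      (∀ (L : ℕ) [NeZero L], normSq (Ψ L) = 1 ∧
        (ham (ising lam) L).mulVec (Ψ L) = (E L : ℂ) • Ψ L ∧
        IsGappedGround (ham (ising lam) L) (2 * (1 - lam)) (Ψ L)) ∧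
      ∀ (L : ℕ) [NeZero L] (D : ℕ), 1 ≤ D → C * (1 + Real.log D) ≤ L →
        ∀ φ : (Site L → Fin 2) → ℂ, IsPEPS D φ →
          (E L + (L : ℝ) ^ 2 * Real.exp (-(C * (1 + Real.log D) ^ 3))) * normSq φ ≤
            (ip φ ((ham (ising lam) L).mulVec φ)).re := by
  obtain ⟨C, Ψ, E, hC, h2, h3⟩ := Pool.Agent.Q234.PE.All.core lam h0 h1
  exact ⟨Pool.Agent.Q234.PL.All.ising_herm lam, Ψ, E, C, by linarith, h2, h3⟩

end Pool.Agent.Results.MP_953b23_mp.EnergyLowerBound
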