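import Pool.Agent.Q234.KG.All

/-!
# Polynomial bond dimension near all gapped product Hamiltonians and their decorations by phases

`a` is a Hermitian `d × d` matrix with a simple lowest eigenvalue and the gap `γ`; `u` is any function of
modulus one of the configuration in an `m × m` box, and `U_L(σ) = ∏_v u(σ on the box at v)` the diagonal
unitary on the `L × L` torus. For `u = 1` the unperturbed Hamiltonian is `∑_v a_v`; with `d = 2`, `a = -X` and
`u = ±1` according to the number of nearest neighbour pairs of spins `1` it is the Hamiltonian of the cluster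
state; the fixed points of the (group cohomology) symmetry protected phases are of this form.

For every range `n` and every `κ > 0` there are `δ, C > 0` such that for EVERY Hermitian interaction `k` on the
`n × n` box with entries at most `δ` and all `L ≥ n + 2 m + 1` the Hamiltonian
`U_L (∑_v a_v) U_Lᴴ + ∑_v τ_v(k)` has a unique ground state with a gap of at least `γ / 2`, and for all
`0 < ε ≤ 1` some PEPS of bond dimension at most `C (L / ε)^κ` is within `ε` of it.
-/

set_option autoImplicit false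

open scoped BigOperators
open Finset Pool.Agent.TH235.PP

namespace Pool.Agent.Results.MP_953b23_mp.NearDecoratedProducts

/-- the interaction which is the matrix `a` at one site -/
def oneSite {d : ℕ} (a : Matrix (Fin d) (Fin d) ℂ) : BoxOp d 1 := fun p q => a (p (0, 0)) (q (0, 0))

/-- the phase `U_L(σ) = ∏_v u(σ on the m × m box at v)` -/
noncomputable def phase {d m L : ℕ} [NeZero L] (u : (Fin m × Fin m → Fin d) → ℂ)
    (σ : Site L → Fin d) : ℂ := ∏ v : Site L, u fun x => σ (sh v x)

/-- Let the Hermitian matrix `a` have a simple lowest eigenvalue and the gap `γ`, and let `u` have modulus one.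
The Hamiltonian `U_L (∑_v a_v) U_Lᴴ` is the sum of the translates of one interaction `h₀` on the box of side
`2 m + 1`, and for every range `n` and every exponent `κ > 0` there are `δ, C > 0` such that for every Hermitian
`k` on the `n × n` box with entries at most `δ` and all `L ≥ n + 2 m + 1` the Hamiltonian `ham h₀ L + ham k L`
has a unique ground state `Ψ` (a unit vector) with a gap of at least `γ / 2`, and for all `0 < ε ≤ 1` there is a
PEPS `φ` of bond dimension `D ≤ C (L / ε)^κ` with `‖φ - Ψ‖ ≤ ε`. -/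
theorem result (d : ℕ) (a : Matrix (Fin d) (Fin d) ℂ) (γ : ℝ) (f : Fin d → ℂ)
    (ha : a.IsHermitian) (hγ : 0 < γ) (hf : f ≠ 0) (hg : IsGappedGround a γ f)
    (m : ℕ) (u : (Fin m × Fin m → Fin d) → ℂ) (hu : ∀ p, ‖u p‖ = 1) :
    ∃ h₀ : BoxOp d (1 + 2 * m), h₀.IsHermitian ∧
      (∀ (L : ℕ) [NeZero L], 2 * m + 2 ≤ L → ∀ s t : Site L → Fin d, ham h₀ L s t =
        phase u s * ham (oneSite a) L s t * (starRingEnd ℂ) (phase u t)) ∧
      ∀ (n : ℕ) (κ : ℝ), 1 ≤ n → 0 < κ →
        ∃ δ C : ℝ, 0 < δ ∧ 0 < C ∧ ∀ k : BoxOp d n, k.IsHermitian → (∀ p q, ‖k p q‖ ≤ δ) →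
          ∀ (L : ℕ) [NeZero L], n + 2 * m + 1 ≤ L → ∃ Ψ : (Site L → Fin d) → ℂ, normSq Ψ = 1 ∧
            IsGappedGround (ham h₀ L + ham k L) (γ / 2) Ψ ∧
            ∀ ε : ℝ, 0 < ε → ε ≤ 1 → ∃ (D : ℕ) (φ : (Site L → Fin d) → ℂ),
              (D : ℝ) ≤ C * ((L : ℝ) / ε) ^ κ ∧ IsPEPS D φ ∧ normSq (φ - Ψ) ≤ ε ^ 2 := by
  have hd : d ≠ 0 := by
    rintro rfl
    exact hf (funext fun x => x.elim0)
  have : NeZero d := ⟨hd⟩
  have h1 : oneSite a = Pool.Agent.Q234.KG.site1 a 1 := by
    funext p q
    unfold oneSite Pool.Agent.Q234.KG.site1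
    rw [Fintype.prod_prod_type]
    simp
  have hsH : (Pool.Agent.Q234.KG.site1 a 1).IsHermitian := by
    rw [← h1]
    ext p q
    exact ha.apply _ _
  have hD := Pool.Agent.Q193.KG.DC.main d 1 m u (Pool.Agent.Q234.KG.site1 a 1) le_rfl hu
  refine ⟨Pool.Agent.Q234.KG.deco u (Pool.Agent.Q234.KG.site1 a 1), hD.2.2 hsH, ?_, ?_⟩
  · intro L _ hL s t
    rw [h1]
    exact (hD.1 L (by omega) s t).symm
  · exact Pool.Agent.Q234.KG.finalD d a γ f ha hγ hf hg m u hu

end Pool.Agent.Results.MP_953b23_mp.NearDecoratedProducts
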